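import Pool.Agent.helper84.TP.SpecA

/-!
# Triviality problem, row DTM: determinism of the instructions
-/

set_option autoImplicit false

namespace Pool.Agent.TP

open Function Turing Turing.PartrecToTM2 Relation

theorem DTM_dg_le (v : Option Γ') : dg v ≤ 4 := by
  rcases v with _ | g
  · exact Nat.zero_le _
  · cases g <;> simp [dg]

theorem DTM_dg_inj (v v' : Option Γ') (h : dg v = dg v') : v = v' := by
  rcases v with _ | g <;> rcases v' with _ | g'
  · rfl
  · cases g' <;> simp [dg] at h
  · cases g <;> simp [dg] at h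
  · cases g <;> cases g' <;> simp [dg] at h <;> rfl

theorem DTM_div (b x y r s : ℤ) (h : b * x + r = b * y + s) (hr : 0 ≤ r) (hs : 0 ≤ s)
    (hr' : r < b) (hs' : s < b) : x = y ∧ r = s := by
  have hx : x = y := by
    rcases lt_trichotomy x y with hxy | hxy | hxy
    · exfalso
      have h1 : x + 1 ≤ y := hxy
      nlinarith
    · exact hxy
    · exfalso
      have h1 : y + 1 ≤ x := hxy
      nlinarith
  refine ⟨hx, ?_⟩
  subst hx
  linarith

theorem DTM_kc (k : K') : kc k ≠ 0 := by
  cases k <;> simp [kc]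

theorem DTM_P0 (ν : Sm → ℕ) (B : ℕ) (q : Sm) (v o : Option Γ') : (insOf ν B q v o).P 0 = 5 * B := rfl

theorem DTM_a0 (ν : Sm → ℕ) (B : ℕ) (q : Sm) (v o : Option Γ') :
    (insOf ν B q v o).a 0 = 5 * ν q + dg v := rfl

theorem DTM_pos (ν : Sm → ℕ) (B : ℕ) (q : Sm) (v o : Option Γ') (hB : 0 < B) (j : Fin 5) :
    0 < (insOf ν B q v o).P j := by
  by_cases hj : j = 0
  · subst hj
    rw [DTM_P0]
    omega
  · have h : (insOf ν B q v o).P j = match sop q v o with
      | some (k, P, _, _, _) => if j = kc k then P else 1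
      | none => 1 := if_neg hj
    rw [h]
    cases q <;> simp only [sop] <;> first | exact Nat.one_pos | (split_ifs <;> norm_num)

theorem DTM_ins (ν : Sm → ℕ) (B : ℕ) (q : Sm) (v o o' : Option Γ') (n n' : Fin 5 → ℤ)
    (h : (insOf ν B q v o).l n = (insOf ν B q v o').l n') : insOf ν B q v o = insOf ν B q v o' := by
  cases q with
  | push k f q => rfl
  | peek k f q =>
    have h1 := congrFun h (kc k)
    have e1 : (insOf ν B (TM2.Stmt.peek k f q) v o).l n (kc k) = 5 * n (kc k) + dg o := by
      simp [Ins.l, insOf, sop, DTM_kc]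
    have e2 : (insOf ν B (TM2.Stmt.peek k f q) v o').l n' (kc k) = 5 * n' (kc k) + dg o' := by
      simp [Ins.l, insOf, sop, DTM_kc]
    rw [e1, e2] at h1
    have hb := DTM_dg_le o
    have hb' := DTM_dg_le o'
    have h2 := (DTM_div 5 _ _ _ _ h1 (by positivity) (by positivity) (by omega) (by omega)).2
    have h3 : o = o' := DTM_dg_inj _ _ (by exact_mod_cast h2)
    rw [h3]
  | pop k f q =>
    have h1 := congrFun h (kc k)
    have e1 : (insOf ν B (TM2.Stmt.pop k f q) v o).l n (kc k) = 5 * n (kc k) + dg o := by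
      simp [Ins.l, insOf, sop, DTM_kc]
    have e2 : (insOf ν B (TM2.Stmt.pop k f q) v o').l n' (kc k) = 5 * n' (kc k) + dg o' := by
      simp [Ins.l, insOf, sop, DTM_kc]
    rw [e1, e2] at h1
    have hb := DTM_dg_le o
    have hb' := DTM_dg_le o'
    have h2 := (DTM_div 5 _ _ _ _ h1 (by positivity) (by positivity) (by omega) (by omega)).2
    have h3 : o = o' := DTM_dg_inj _ _ (by exact_mod_cast h2)
    rw [h3]
  | load a q => rfl
  | branch f q₁ q₂ => rfl
  | goto l => rfl
  | halt => rfl

theorem DTM : DTM_stmt := by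
  intro ν B q q' v v' o o' n n' hq hq' hinj h
  have h0 := congrFun h 0
  simp only [Ins.l, DTM_P0, DTM_a0] at h0
  have hd := DTM_dg_le v
  have hd' := DTM_dg_le v'
  have h1 := DTM_div ((5 * B : ℕ) : ℤ) _ _ _ _ h0 (by positivity) (by positivity) (by omega) (by omega)
  have h2 : 5 * ν q + dg v = 5 * ν q' + dg v' := by exact_mod_cast h1.2
  have hνq : ν q = ν q' := by omega
  have hdg : dg v = dg v' := by omega
  have hqq : q = q' := hinj hνq
  have hvv : v = v' := DTM_dg_inj _ _ hdg
  subst hqq
  subst hvv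
  have hi := DTM_ins ν B q v o o' n n' h
  refine ⟨rfl, rfl, ?_⟩
  rw [hi] at h ⊢
  have hn : n = n' := by
    funext j
    have hj := congrFun h j
    have hp := DTM_pos ν B q v o' (by omega) j
    have hp' : (0 : ℤ) < ((insOf ν B q v o').P j : ℤ) := by exact_mod_cast hp
    simp only [Ins.l] at hj
    have hj' : ((insOf ν B q v o').P j : ℤ) * n j = ((insOf ν B q v o').P j : ℤ) * n' j := by linarith
    exact mul_left_cancel₀ (ne_of_gt hp') hj'
  rw [hn]

end Pool.Agent.TP
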